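import Pool.Agent.Q289.LZ.Exist

/-!
# Iterated bivariate Lorenz curves of a law with a density need not become independent
-/

set_option autoImplicit false

open MeasureTheory ProbabilityTheory Filter Topology

namespace Pool.Agent.Results.MP_357d86_pr.NotIndependent

/-- the generalized inverse `F⁻¹(x) = inf {y | F y ≥ x}`, with values in `[-∞, ∞]` -/
noncomputable def genInv (F : ℝ → ℝ) (x : ℝ) : EReal := sInf (Real.toEReal '' {y : ℝ | x ≤ F y})

/-- the distribution function of the first coordinate of the law `ν` on the plane -/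
noncomputable def F₁ (ν : Measure (ℝ × ℝ)) (y : ℝ) : ℝ := ν.real {v | v.1 ≤ y}

/-- the distribution function of the second coordinate of the law `ν` on the plane -/
noncomputable def F₂ (ν : Measure (ℝ × ℝ)) (y : ℝ) : ℝ := ν.real {v | v.2 ≤ y}

/-- the bivariate (Arnold-type) Lorenz curve of the law `ν` -/
noncomputable def lorenz (ν : Measure (ℝ × ℝ)) (x₁ x₂ : ℝ) : ℝ :=
  (∫ u in {u : ℝ × ℝ | (u.1 : EReal) ≤ genInv (F₁ ν) x₁ ∧ (u.2 : EReal) ≤ genInv (F₂ ν) x₂},
    u.1 * u.2 ∂ν) / ∫ u, u.1 * u.2 ∂ν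

/-- `ν 0` is the law of `X`, and `ν (n + 1)` is the law on the unit square whose distribution
function is the `n`-th iterate `L^n`, which is the Lorenz curve of `ν n`
(`L^0 = L_F`, `L^(n+1) = L_{L^n}`) -/
structure IsIteration (ν : ℕ → Measure (ℝ × ℝ)) : Prop where
  prob : ∀ n, IsProbabilityMeasure (ν n)
  supp : ∀ n, ∀ᵐ u ∂(ν (n + 1)), u ∈ Set.Icc (0 : ℝ) 1 ×ˢ Set.Icc (0 : ℝ) 1
  cdf : ∀ n, ∀ x₁ ∈ Set.Icc (0 : ℝ) 1, ∀ x₂ ∈ Set.Icc (0 : ℝ) 1,
    (ν (n + 1)).real {v | v.1 ≤ x₁ ∧ v.2 ≤ x₂} = lorenz (ν n) x₁ x₂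

/-- statement (i): both marginals `L^n(x,1)` and `L^n(1,x)` of the iterates converge uniformly
on `[0,1]` to `x ^ φ`, with `φ` the golden ratio -/
def MarginalsConverge (L : ℕ → ℝ → ℝ → ℝ) : Prop :=
  TendstoUniformlyOn (fun n x => L n x 1) (fun x => x ^ Real.goldenRatio) atTop (Set.Icc 0 1) ∧
  TendstoUniformlyOn (fun n x => L n 1 x) (fun x => x ^ Real.goldenRatio) atTop (Set.Icc 0 1)

/-- statement (ii): `L^n(x₁,x₂) - L^n(x₁,1) L^n(1,x₂) → 0` uniformly on the unit square -/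
def BecomeIndependent (L : ℕ → ℝ → ℝ → ℝ) : Prop :=
  TendstoUniformlyOn (fun n (x : ℝ × ℝ) => L n x.1 x.2 - L n x.1 1 * L n 1 x.2) (fun _ => 0)
    atTop (Set.Icc 0 1 ×ˢ Set.Icc 0 1)

section example_law

/-- the block boundaries `1 - 2^{-k}` -/
noncomputable def bb (k : ℕ) : ℝ := 1 - (1 / 2) ^ k

/-- the square `(1 - 2^{-k}, 1 - 2^{-k-1}]²` -/
def sq (k : ℕ) : Set (ℝ × ℝ) := Set.Ioc (bb k) (bb (k + 1)) ×ˢ Set.Ioc (bb k) (bb (k + 1))

/-- the block diagonal law: density `2^{k+1}` on the square `sq k` -/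
noncomputable def law : Measure (ℝ × ℝ) :=
  Measure.sum fun k : ℕ => ENNReal.ofReal (2 ^ (k + 1)) • volume.restrict (sq k)

theorem bb_sub (k : ℕ) : bb (k + 1) - bb k = (1 / 2) ^ (k + 1) := by
  unfold bb; ring

theorem bb_mono : Monotone bb := monotone_nat_of_le_succ fun k => by
  have := bb_sub k
  have h : (0 : ℝ) < (1 / 2) ^ (k + 1) := by positivity
  linarith

theorem bb_nonneg (k : ℕ) : 0 ≤ bb k := by
  have h : ((1 : ℝ) / 2) ^ k ≤ 1 := pow_le_one₀ (by norm_num) (by norm_num)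
  unfold bb; linarith

theorem bb_lt_one (k : ℕ) : bb k < 1 := by
  have h : (0 : ℝ) < (1 / 2) ^ k := by positivity
  unfold bb; linarith

theorem meas_sq (k : ℕ) : MeasurableSet (sq k) := measurableSet_Ioc.prod measurableSet_Ioc

theorem mass (k : ℕ) : ENNReal.ofReal (2 ^ (k + 1)) * volume (sq k) =
    ENNReal.ofReal ((1 / 2) ^ (k + 1)) := by
  unfold sq
  rw [Measure.volume_eq_prod, Measure.prod_prod, Real.volume_Ioc, bb_sub,
    ← ENNReal.ofReal_mul (by positivity), ← ENNReal.ofReal_mul (by positivity)]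
  congr 1
  rw [← mul_assoc, ← mul_pow]
  norm_num

theorem law_univ : law Set.univ = 1 := by
  unfold law
  rw [Measure.sum_apply _ MeasurableSet.univ]
  have h : ∀ k : ℕ, (ENNReal.ofReal (2 ^ (k + 1)) • (volume : Measure (ℝ × ℝ)).restrict (sq k))
      Set.univ = ENNReal.ofReal ((1 / 2) ^ (k + 1)) := by
    intro k
    rw [Measure.smul_apply, smul_eq_mul, Measure.restrict_apply MeasurableSet.univ,
      Set.univ_inter, mass]
  simp only [h]
  rw [← ENNReal.ofReal_tsum_of_nonneg (fun k => by positivity)]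
  · have h1 : ∑' n : ℕ, (1 / 2 : ℝ) ^ (n + 1) = 1 := by
      have h2 : ∀ n : ℕ, (1 / 2 : ℝ) ^ (n + 1) = 1 / 2 * (1 / 2) ^ n := fun n => by ring
      simp only [h2]
      rw [tsum_mul_left, tsum_geometric_two]
      norm_num
    rw [h1, ENNReal.ofReal_one]
  · have h2 : ∀ n : ℕ, (1 / 2 : ℝ) ^ (n + 1) = 1 / 2 * (1 / 2) ^ n := fun n => by ring
    simp only [h2]
    exact summable_geometric_two.mul_left _

theorem law_prob : IsProbabilityMeasure law := ⟨law_univ⟩

theorem law_ac : law ≪ volume := by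
  unfold law
  refine Measure.absolutelyContinuous_sum_left fun k => ?_
  exact (Measure.smul_absolutelyContinuous).trans Measure.restrict_le_self.absolutelyContinuous

/-- almost every point lies in one of the squares -/
theorem law_ae : ∀ᵐ u ∂law, ∃ k, u ∈ sq k := by
  unfold law
  rw [Measure.ae_sum_iff]
  · intro k
    refine Measure.smul_absolutelyContinuous.ae_le ?_
    filter_upwards [ae_restrict_mem (meas_sq k)] with u hu
    exact ⟨k, hu⟩

theorem law_supp : ∀ᵐ u ∂law, u ∈ Set.Icc (0 : ℝ) 1 ×ˢ Set.Icc (0 : ℝ) 1 := by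
  filter_upwards [law_ae] with u hu
  obtain ⟨k, ⟨h1, h2⟩, h3, h4⟩ := hu
  have h5 := bb_nonneg k
  have h6 := bb_lt_one (k + 1)
  exact ⟨⟨by linarith, by linarith⟩, by linarith, by linarith⟩

theorem law_blk (j : ℕ) : Q289.LZ.Blk law (bb j) := by
  unfold Q289.LZ.Blk
  filter_upwards [law_ae] with u hu
  obtain ⟨k, ⟨h1, h2⟩, h3, h4⟩ := hu
  rcases le_or_gt (k + 1) j with h | h
  · have := bb_mono h
    constructor <;> intro <;> linarith
  · have := bb_mono (Nat.lt_succ_iff.1 h)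
    constructor <;> intro <;> linarith

theorem law_at₁ (c : ℝ) : ∀ᵐ u ∂law, u.1 ≠ c := by
  have hae : ∀ᵐ u : ℝ × ℝ ∂volume, u.1 ≠ c := by
    rw [ae_iff]
    have h : {a : ℝ × ℝ | ¬ a.1 ≠ c} = {c} ×ˢ Set.univ := by
      ext a; simp
    rw [h, Measure.volume_eq_prod, Measure.prod_prod, Real.volume_singleton, zero_mul]
  exact law_ac.ae_le hae

theorem law_at₂ (c : ℝ) : ∀ᵐ u ∂law, u.2 ≠ c := by
  have hae : ∀ᵐ u : ℝ × ℝ ∂volume, u.2 ≠ c := by
    rw [ae_iff]
    have h : {a : ℝ × ℝ | ¬ a.2 ≠ c} = Set.univ ×ˢ {c} := by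
      ext a; simp
    rw [h, Measure.volume_eq_prod, Measure.prod_prod, Real.volume_singleton, mul_zero]
  exact law_ac.ae_le hae

theorem law_good : Q289.LZ.Good law := ⟨law_prob, law_supp, law_at₁, law_at₂⟩

/-- there is mass above each boundary -/
theorem law_lt (j : ℕ) : Q289.LZ.F₁ law (bb j) < 1 := by
  have := law_prob
  have h1 : law.real {v | v.1 ≤ bb j}ᶜ = 1 - Q289.LZ.F₁ law (bb j) :=
    probReal_compl_eq_one_sub (Q289.LZ.meas₁ _)
  have h2 : 0 < law {v | v.1 ≤ bb j}ᶜ := by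
    have h3 : (ENNReal.ofReal (2 ^ (j + 1)) • (volume : Measure (ℝ × ℝ)).restrict (sq j))
        {v | v.1 ≤ bb j}ᶜ ≤ law {v | v.1 ≤ bb j}ᶜ :=
      Measure.le_sum (fun k : ℕ => ENNReal.ofReal (2 ^ (k + 1)) •
        (volume : Measure (ℝ × ℝ)).restrict (sq k)) j _
    refine lt_of_lt_of_le ?_ h3
    rw [Measure.smul_apply, smul_eq_mul, Measure.restrict_apply (Q289.LZ.meas₁ _).compl]
    have h4 : {v : ℝ × ℝ | v.1 ≤ bb j}ᶜ ∩ sq j = sq j := by
      apply Set.inter_eq_right.2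
      intro v hv h5
      have h6 : v.1 ≤ bb j := h5
      exact absurd h6 (not_le.2 hv.1.1)
    rw [h4, mass]
    rw [ENNReal.ofReal_pos]
    positivity
  have h3 : 0 < law.real {v | v.1 ≤ bb j}ᶜ := by
    rw [measureReal_def]
    exact ENNReal.toReal_pos h2.ne' (measure_ne_top _ _)
  linarith

theorem law_lim : Tendsto (fun k => Q289.LZ.F₁ law (bb k)) atTop (𝓝 1) := by
  have hp := law_prob
  have h1 : Tendsto (fun k => law {v : ℝ × ℝ | v.1 ≤ bb k}) atTop
      (𝓝 (law (⋃ k, {v : ℝ × ℝ | v.1 ≤ bb k}))) := by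
    apply tendsto_measure_iUnion_atTop
    intro a b hab v hv
    exact le_trans (show v.1 ≤ bb a from hv) (bb_mono hab)
  have h2 : law (⋃ k, {v : ℝ × ℝ | v.1 ≤ bb k}) = 1 := by
    rw [← law_univ]
    apply measure_congr
    filter_upwards [law_ae] with u hu
    obtain ⟨k, ⟨h1, h2⟩, h3, h4⟩ := hu
    apply propext
    change (u ∈ ⋃ k, {v : ℝ × ℝ | v.1 ≤ bb k}) ↔ True
    simp only [iff_true, Set.mem_iUnion]
    exact ⟨k + 1, h2⟩
  rw [h2] at h1
  have h3 := (ENNReal.tendsto_toReal ENNReal.one_ne_top).comp h1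
  rw [ENNReal.toReal_one] at h3
  exact h3

end example_law

/-- There is a law `μ` on `[0,∞)²` with a density and with finite positive moments `E X₁`, `E X₂`,
`E X₁X₂` for which the iterated Lorenz curves exist, but (i) and (ii) do not both hold. -/
theorem result : ∃ μ : Measure (ℝ × ℝ), IsProbabilityMeasure μ ∧ μ ≪ volume ∧
    (∀ᵐ u ∂μ, 0 ≤ u.1 ∧ 0 ≤ u.2) ∧
    (Integrable (fun u => u.1) μ ∧ 0 < ∫ u, u.1 ∂μ) ∧
    (Integrable (fun u => u.2) μ ∧ 0 < ∫ u, u.2 ∂μ) ∧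
    (Integrable (fun u => u.1 * u.2) μ ∧ 0 < ∫ u, u.1 * u.2 ∂μ) ∧
    (∃ ν : ℕ → Measure (ℝ × ℝ), IsIteration ν ∧ ν 0 = μ) ∧
    ∀ ν : ℕ → Measure (ℝ × ℝ), IsIteration ν → ν 0 = μ →
      ¬ (MarginalsConverge (fun n => lorenz (ν n)) ∧
        BecomeIndependent (fun n => lorenz (ν n))) := by
  have hp := law_prob
  have hpos : ∀ f : ℝ × ℝ → ℝ, Integrable f law → (∀ᵐ u ∂law, 0 < f u) → 0 < ∫ u, f u ∂law := by
    intro f hf h
    rw [integral_pos_iff_support_of_nonneg_ae (h.mono fun u hu => hu.le) hf]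
    have h1 : Function.support f =ᵐ[law] Set.univ := by
      filter_upwards [h] with u h1
      apply propext
      change (f u ≠ 0) ↔ True
      simp only [iff_true]
      exact h1.ne'
    rw [measure_congr h1, measure_univ]
    exact one_pos
  have hi1 : Integrable (fun u : ℝ × ℝ => u.1) law := by
    refine Integrable.of_bound (C := 1) (by fun_prop) ?_
    filter_upwards [law_supp] with u hu
    rw [Real.norm_eq_abs, abs_of_nonneg hu.1.1]
    exact hu.1.2
  have hi2 : Integrable (fun u : ℝ × ℝ => u.2) law := by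
    refine Integrable.of_bound (C := 1) (by fun_prop) ?_
    filter_upwards [law_supp] with u hu
    rw [Real.norm_eq_abs, abs_of_nonneg hu.2.1]
    exact hu.2.2
  refine ⟨law, law_prob, law_ac, law_supp.mono fun u hu => ⟨hu.1.1, hu.2.1⟩,
    ⟨hi1, hpos _ hi1 ?_⟩, ⟨hi2, hpos _ hi2 ?_⟩, ⟨Q289.LZ.int_prod law_supp, law_good.mean_pos⟩,
    ⟨Q289.LZ.iter law, ⟨fun n => (Q289.LZ.iter_good law_good n).prob,
      fun n => (Q289.LZ.iter_good law_good (n + 1)).supp,
      fun n => (Q289.LZ.iter_good law_good n).T_next.cdf⟩, rfl⟩, ?_⟩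
  · filter_upwards [law_supp, law_at₁ 0] with u hu h
    exact lt_of_le_of_ne hu.1.1 (Ne.symm h)
  · filter_upwards [law_supp, law_at₂ 0] with u hu h
    exact lt_of_le_of_ne hu.2.1 (Ne.symm h)
  · rintro ν hν h0 ⟨⟨hi, _⟩, hii⟩
    have := hν.prob
    refine Q289.LZ.no_limit (ν := ν) (b := bb) (by rw [h0]; exact law_supp)
      (fun n => ⟨hν.supp n, hν.cdf n⟩) bb_nonneg (fun k => by rw [h0]; exact law_blk k)
      (fun k => by rw [h0]; exact law_lt k) (by rw [h0]; exact law_lim)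
      Real.one_lt_goldenRatio Real.goldenRatio_lt_two hi hii

end Pool.Agent.Results.MP_357d86_pr.NotIndependent
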